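import Pool.Agent.K1H51.TM.Frc2

/-!
# Absolute values of the discrepancies for the moduli up to `N / (log N) ^ K'`, for almost all residues
from families with a small large spectrum

The Barban-Davenport-Halberstam bound for all residues is transferred to thin families of residues: as a function of
the residue `a` the variance over the moduli of a dyadic block has a small Wiener norm. The average over all residues
is from the starting files (`Pool.Agent.H343R2.EH.Psi`).
-/

set_option autoImplicit false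

namespace Pool.Agent.Results.MP_00e23e_nt.AbsoluteValuesLargeModuli

open Finset

open Classical in
/-- The large spectrum modulo `M` of the family `s i`, `i ∈ I`, at the level `η`: the frequencies `t` modulo `M`
for which the sum of `e (t (s i) / M)` over the `i ∈ I` has absolute value larger than `η |I|`. -/
noncomputable def spectrum {ι : Type} (M : ℕ) (I : Finset ι) (s : ι → ℤ) (η : ℝ) : Finset ℕ :=
  (range M).filter (fun t : ℕ => η * I.card <
    ‖∑ i ∈ I, Complex.exp (2 * Real.pi * Complex.I * (((t : ℝ) * ((s i : ℝ) / M) : ℝ) : ℂ))‖)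

/-- `ψ(y; q, a)`: the sum of the von Mangoldt function over the `n ≤ y` with `n ≡ a` modulo `q`. -/
noncomputable def psi (y q a : ℕ) : ℝ := ∑ n ∈ (Icc 1 y).filter (fun n => n ≡ a [MOD q]), ArithmeticFunction.vonMangoldt n

/-- The moduli `A ≤ q ≤ B` coprime to `a`. -/
noncomputable def moduli (A B : ℝ) (a : ℕ) : Finset ℕ := (Icc 1 ⌊B⌋₊).filter (fun q : ℕ => A ≤ q ∧ a.Coprime q)

/-- The sum of the `|ψ(Y q; q, a) - (Y q) / φ(q)|` over the moduli `A ≤ q ≤ B` coprime to `a`. -/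
noncomputable def discrepancy (A B : ℝ) (Y : ℕ → ℕ) (a : ℕ) : ℝ :=
  ∑ q ∈ moduli A B a, |psi (Y q) q a - (Y q : ℝ) / (Nat.totient q : ℝ)|

open Classical in
/-- The number of the `i ∈ I` with `1 ≤ s i ≤ N` for which `discrepancy A B Y (s i)` is larger than `δ` for some choice of
the heights `Y q ≤ N`. -/
noncomputable def exceptions {ι : Type} (N : ℕ) (A B δ : ℝ) (I : Finset ι) (s : ι → ℤ) : ℕ :=
  (I.filter (fun i => 1 ≤ s i ∧ s i ≤ N ∧ ∃ Y : ℕ → ℕ, (∀ q, Y q ≤ N) ∧ δ < discrepancy A B Y (s i).toNat)).card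

/-- The pairs `(p, u)` with a prime `p ≤ P` and `1 ≤ u ≤ P`. -/
def pairs (P : ℕ) : Finset (ℕ × ℕ) := ((Icc 1 P).filter Nat.Prime) ×ˢ (Icc 1 P)

/-- The least non-negative residue of `c + u / p` modulo `M`, for the pair `j = (p, u)`. -/
def frac (M : ℕ) (c : ℤ) (j : ℕ × ℕ) : ℤ := (c + j.2 * (((j.1 : ZMod M)⁻¹.val : ℕ) : ℤ)) % M

theorem general (U K : ℕ) : ∃ K' C N₀ : ℕ, ∀ N : ℕ, N₀ ≤ N → ∀ M : ℕ, 3 * N ≤ M → M ≤ N ^ 2 →
    ∀ (ι : Type) (I : Finset ι) (s : ι → ℤ) (η : ℝ), 0 ≤ η →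
    ((spectrum M I s η).card : ℝ) * N ≤ Real.log N ^ K * M →
    (exceptions N (η * N * Real.log N ^ C) (N / Real.log N ^ K') (N / Real.log N ^ U) I s : ℝ) ≤ I.card / Real.log N ^ U := by
  classical
  obtain ⟨K', C, n0, h0⟩ := Pool.Agent.K1H51.TM.crit3 U K
  obtain ⟨n1, h1⟩ := Pool.Agent.H373R2.T7.ev_L' 1
  refine ⟨K', C, n0 + n1 + 1, fun N hN M hM1 hM2 ι I s η hη hspec => ?_⟩
  have hL := h1 N (by omega)
  obtain ⟨Bad, hBadI, hBadc, hgood⟩ := h0 N (by omega) M hM1 hM2 I s η hη hspec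
  refine le_trans ?_ hBadc
  apply Nat.cast_le.2
  apply card_le_card
  intro i hi
  rw [mem_filter] at hi
  obtain ⟨hiI, hs1, hs2, Y, hY, hδ⟩ := hi
  by_contra hcon
  have h2 := hgood i hiI hcon hs1 hs2 Y hY
  apply absurd h2
  rw [not_le]
  refine lt_of_lt_of_eq hδ ?_
  unfold discrepancy
  have hLpos : 0 < Real.log (N : ℝ) ^ K' := by positivity
  have hmod : moduli (η * N * Real.log N ^ C) (N / Real.log N ^ K') (s i).toNat =
      Pool.Agent.K1H51.TM.mods N C K' η (s i).toNat := by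
    unfold moduli Pool.Agent.K1H51.TM.mods
    ext q
    rw [mem_filter, mem_filter, mem_Icc, mem_Icc, Nat.le_floor_iff (by positivity), le_div_iff₀ hLpos]
    constructor
    · rintro ⟨⟨q1, q2⟩, q3, q4⟩
      refine ⟨⟨q1, ?_⟩, q3, q2, q4⟩
      have h3 : (q : ℝ) ≤ q * Real.log N ^ K' := le_mul_of_one_le_right (Nat.cast_nonneg _) (one_le_pow₀ hL)
      exact_mod_cast h3.trans q2
    · rintro ⟨⟨q1, q2⟩, q3, q4, q5⟩
      exact ⟨⟨q1, q4⟩, q3, q5⟩
  rw [hmod]
  apply sum_congr rfl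
  intro q _
  unfold psi H343E.psiAP
  rw [Nat.floor_natCast]

/-- **Barban-Davenport-Halberstam for thin families.** Let `U` and `K` be fixed.

* There are `K'` and `C` such that the following holds for all large `N`, for `3 N ≤ M ≤ N ^ 2` and every `η ≥ 0`. Let `s i`,
  `i ∈ I`, be an arbitrary finite family of integers for which at most `log ^ K N * M / N` frequencies modulo `M`
  have an exponential sum larger than `η |I|`. Then, for all but at most `|I| / log ^ U N` of the `i ∈ I` with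
  `1 ≤ s i ≤ N`, the residue `a = s i` satisfies `∑_q max_{y ≤ N} |ψ(y; q, a) - y / φ(q)| ≤ N / log ^ U N`, where `q` ranges
  over the `η N log ^ C N ≤ q ≤ N / log ^ K' N` coprime to `a`.
* There are `K'` and `C` such that for all large `N`, all `P` with `log ^ C N ≤ P ≤ N / 3`, every prime `M` between `3 N` and
  `6 N` and every integer `c`: this holds for the family of the residues `c + u / p` modulo `M`, where `p ≤ P` is
  prime and `u ≤ P`, and the `(N / P) log ^ C N ≤ q ≤ N / log ^ K' N`; at least `1 / 20` of the members of the family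
  lie in `[1, N]`. -/
theorem result (U K : ℕ) :
    (∃ K' C N₀ : ℕ, ∀ N : ℕ, N₀ ≤ N → ∀ M : ℕ, 3 * N ≤ M → M ≤ N ^ 2 →
      ∀ (ι : Type) (I : Finset ι) (s : ι → ℤ) (η : ℝ), 0 ≤ η →
      ((spectrum M I s η).card : ℝ) * N ≤ Real.log N ^ K * M →
      (exceptions N (η * N * Real.log N ^ C) (N / Real.log N ^ K') (N / Real.log N ^ U) I s : ℝ) ≤
        I.card / Real.log N ^ U) ∧
    (∃ K' C N₀ : ℕ, ∀ N : ℕ, N₀ ≤ N → ∀ P : ℕ, Real.log N ^ C ≤ P → 3 * P ≤ N → ∀ I : Finset (ℕ × ℕ), I = pairs P →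
      ∀ M : ℕ, M.Prime → 3 * N ≤ M → M ≤ 6 * N → ∀ c : ℤ,
      (I.card : ℝ) / 20 ≤ ((I.filter (fun j => 1 ≤ frac M c j ∧ frac M c j ≤ N)).card : ℝ) ∧
      (exceptions N (N / P * Real.log N ^ C) (N / Real.log N ^ K') (N / Real.log N ^ U) I (frac M c) : ℝ) ≤
        I.card / Real.log N ^ U) := by
  classical
  refine ⟨general U K, ?_⟩
  obtain ⟨K', C, n0, h0⟩ := general U 0
  obtain ⟨n1, h1⟩ := Pool.Agent.K1H51.TM.frac_all2
  obtain ⟨n2, h2⟩ := Pool.Agent.H373R2.T7.ev_L' 1
  refine ⟨K', C + 5, n0 + n1 + n2 + 6, fun N hN P hP1 hP2 I hI M hMp hM1 hM2 c => ?_⟩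
  have hL := h2 N (by omega)
  obtain ⟨L, hLd⟩ : ∃ L, L = Real.log (N : ℝ) := ⟨_, rfl⟩
  have hI' : I = Pool.Agent.K1H51.LD.pairs P P := hI
  have hfr : frac M c = Pool.Agent.K1H51.LD.frac M c := rfl
  have hP4 : Real.log N ^ 5 ≤ P := (pow_le_pow_right₀ hL (by omega)).trans hP1
  obtain ⟨g1, g2, _⟩ := h1 N (by omega) P hP4 hP2 M hMp hM1 hM2 c
  rw [← hI', ← hfr] at g1 g2
  refine ⟨g2, ?_⟩
  have hP0 : (0 : ℝ) < P := lt_of_lt_of_le (by positivity) hP4
  have hη : (0 : ℝ) ≤ Real.log N ^ 4 / P := by positivity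
  have hM2' : M ≤ N ^ 2 := by
    have : 6 * N ≤ N ^ 2 := by
      rw [sq]
      exact Nat.mul_le_mul_right N (by omega)
    exact hM2.trans this
  have hspec : spectrum M I (frac M c) (Real.log N ^ 4 / P) ⊆ {0} := by
    intro t ht
    unfold spectrum at ht
    rw [mem_filter, mem_range] at ht
    rw [mem_singleton]
    by_contra hne
    have h6 := g1 t (by omega) ht.1
    exact absurd ht.2 (not_lt.2 h6)
  have hc : ((spectrum M I (frac M c) (Real.log N ^ 4 / P)).card : ℝ) ≤ 1 := by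
    exact_mod_cast (card_le_card hspec).trans (by simp)
  have hNM : (N : ℝ) ≤ M := by exact_mod_cast (by omega : N ≤ M)
  have key := h0 N (by omega) M hM1 hM2' (ℕ × ℕ) I (frac M c) (Real.log N ^ 4 / P) hη (by
    rw [pow_zero, one_mul]
    calc ((spectrum M I (frac M c) (Real.log N ^ 4 / P)).card : ℝ) * N ≤ 1 * N := mul_le_mul_of_nonneg_right hc (Nat.cast_nonneg _)
      _ = N := one_mul _
      _ ≤ M := hNM)
  refine le_trans ?_ key
  apply Nat.cast_le.2
  apply card_le_card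
  intro i hi
  rw [mem_filter] at hi ⊢
  obtain ⟨hiI, hs1, hs2, Y, hY, hδ⟩ := hi
  refine ⟨hiI, hs1, hs2, Y, hY, lt_of_lt_of_le hδ ?_⟩
  unfold discrepancy
  apply sum_le_sum_of_subset_of_nonneg
  · unfold moduli
    intro q hq
    rw [mem_filter] at hq ⊢
    refine ⟨hq.1, ?_, hq.2.2⟩
    refine le_trans ?_ hq.2.1
    have hN0 : (0 : ℝ) ≤ N := Nat.cast_nonneg _
    calc Real.log N ^ 4 / P * N * Real.log N ^ C = N / P * Real.log N ^ (C + 4) := by ring
      _ ≤ N / P * Real.log N ^ (C + 5) := by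
          apply mul_le_mul_of_nonneg_left _ (by positivity)
          exact pow_le_pow_right₀ hL (by omega)
  · intro _ _ _
    exact abs_nonneg _

end Pool.Agent.Results.MP_00e23e_nt.AbsoluteValuesLargeModuli
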