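import Pool.Agent.K1H51.TM.Fin2
import Pool.Agent.K1H51.TM.Frc2

/-!
# Absolute values of the discrepancies for all moduli up to `N / (log N) ^ K'`, for almost all residues from
thin families

The Barban-Davenport-Halberstam bound for all residues is transferred to families of about `√N` residues. For the large
moduli the variance over a dyadic block of moduli has, as a function of the residue, a small Wiener norm; for the small
moduli the collisions of the members of the family modulo `q` are counted and a bound for arbitrary sets of residue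
classes is used (`H343E.unsmoothed`, from the starting files).
-/

set_option autoImplicit false

namespace Pool.Agent.Results.MP_00e23e_nt.FullRangeThinFamilies

open Finset

open Classical in
/-- The large spectrum modulo `M` of the family `s i`, `i ∈ I`, at the level `η`: the frequencies `t` modulo `M`
for which the sum of `e (t (s i) / M)` over the `i ∈ I` has absolute value larger than `η |I|`. -/
noncomputable def spectrum {ι : Type} (M : ℕ) (I : Finset ι) (s : ι → ℤ) (η : ℝ) : Finset ℕ :=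
  (range M).filter (fun t : ℕ => η * I.card <
    ‖∑ i ∈ I, Complex.exp (2 * Real.pi * Complex.I * (((t : ℝ) * ((s i : ℝ) / M) : ℝ) : ℂ))‖)

/-- The number of the pairs of members of the family which are equal. -/
def coincidences {ι : Type} (I : Finset ι) (s : ι → ℤ) : ℕ := ((I ×ˢ I).filter (fun p => s p.1 = s p.2)).card

/-- `ψ(y; q, a)`: the sum of the von Mangoldt function over the `n ≤ y` with `n ≡ a` modulo `q`. -/
noncomputable def psi (y q a : ℕ) : ℝ := ∑ n ∈ (Icc 1 y).filter (fun n => n ≡ a [MOD q]), ArithmeticFunction.vonMangoldt n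

/-- The sum of the `|ψ(Y q; q, a) - (Y q) / φ(q)|` over all moduli `q ≤ B` coprime to `a`. -/
noncomputable def discrepancy (B : ℝ) (Y : ℕ → ℕ) (a : ℕ) : ℝ :=
  ∑ q ∈ (Icc 1 ⌊B⌋₊).filter (fun q : ℕ => a.Coprime q), |psi (Y q) q a - (Y q : ℝ) / (Nat.totient q : ℝ)|

open Classical in
/-- The number of the `i ∈ I` with `1 ≤ s i ≤ N` for which `discrepancy B Y (s i)` is larger than `δ` for some choice of
the heights `Y q ≤ N`. -/
noncomputable def exceptions {ι : Type} (N : ℕ) (B δ : ℝ) (I : Finset ι) (s : ι → ℤ) : ℕ :=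
  (I.filter (fun i => 1 ≤ s i ∧ s i ≤ N ∧ ∃ Y : ℕ → ℕ, (∀ q, Y q ≤ N) ∧ δ < discrepancy B Y (s i).toNat)).card

/-- The pairs `(p, u)` with a prime `p ≤ P` and `1 ≤ u ≤ P`. -/
def pairs (P : ℕ) : Finset (ℕ × ℕ) := ((Icc 1 P).filter Nat.Prime) ×ˢ (Icc 1 P)

/-- The least non-negative residue of `c + u / p` modulo `M`, for the pair `j = (p, u)`. -/
def frac (M : ℕ) (c : ℤ) (j : ℕ × ℕ) : ℤ := (c + j.2 * (((j.1 : ZMod M)⁻¹.val : ℕ) : ℤ)) % M

theorem general (U K : ℕ) : ∃ K' C N₀ : ℕ, ∀ N : ℕ, N₀ ≤ N → ∀ M : ℕ, 3 * N ≤ M → M ≤ N ^ 2 →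
    ∀ (ι : Type) (I : Finset ι) (s : ι → ℤ) (η : ℝ), 0 ≤ η →
    ((spectrum M I s η).card : ℝ) * N ≤ Real.log N ^ K * M →
    (coincidences I s : ℝ) ≤ Real.log N ^ K * I.card →
    η ^ 2 * Real.log N ^ C ≤ 1 → η ^ 2 * N * Real.log N ^ C ≤ I.card →
    (exceptions N (N / Real.log N ^ K') (N / Real.log N ^ U) I s : ℝ) ≤ I.card / Real.log N ^ U := by
  classical
  obtain ⟨K', C, n0, h0⟩ := Pool.Agent.K1H51.TM.crit4 U K
  obtain ⟨n1, h1⟩ := Pool.Agent.H373R2.T7.ev_L' 1
  refine ⟨K', C, n0 + n1 + 1, fun N hN M hM1 hM2 ι I s η hη hspec hco he1 he2 => ?_⟩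
  have hL := h1 N (by omega)
  have hco' : (((I ×ˢ I).filter (fun p => s p.1 = s p.2)).card : ℝ) ≤ Real.log N ^ K * I.card := by
    unfold coincidences at hco
    convert hco using 3
  obtain ⟨Bad, hBadI, hBadc, hgood⟩ := h0 N (by omega) M hM1 hM2 I s η hη hspec hco' he1 he2
  refine le_trans ?_ hBadc
  apply Nat.cast_le.2
  apply card_le_card
  intro i hi
  rw [mem_filter] at hi
  obtain ⟨hiI, hs1, hs2, Y, hY, hδ⟩ := hi
  by_contra hcon
  have hLpos : 0 < Real.log (N : ℝ) ^ K' := by positivity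
  have hN0 : (0 : ℝ) ≤ N := Nat.cast_nonneg _
  have h2 := hgood i hiI hcon hs1 hs2 Y hY ((Icc 1 ⌊(N : ℝ) / Real.log N ^ K'⌋₊).filter (fun q : ℕ => (s i).toNat.Coprime q)) (by
    intro q hq
    rw [mem_filter, mem_Icc, Nat.le_floor_iff (by positivity), le_div_iff₀ hLpos] at hq
    rw [mem_Icc]
    refine ⟨hq.1.1, ?_⟩
    have h3 : (q : ℝ) ≤ q * Real.log N ^ K' := le_mul_of_one_le_right (Nat.cast_nonneg _) (one_le_pow₀ hL)
    exact_mod_cast h3.trans hq.1.2) (by
    intro q hq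
    rw [mem_filter, mem_Icc, Nat.le_floor_iff (by positivity), le_div_iff₀ hLpos] at hq
    exact ⟨hq.2, hq.1.2⟩)
  apply absurd h2
  rw [not_le]
  refine lt_of_lt_of_eq hδ ?_
  unfold discrepancy
  apply sum_congr rfl
  intro q _
  unfold psi H343E.psiAP
  rw [Nat.floor_natCast]

/-- **The full range of the moduli for thin families.** Let `U` and `K` be fixed.

* There are `K'` and `C` such that the following holds for all large `N`, for `3 N ≤ M ≤ N ^ 2` and every `η ≥ 0`. Let `s i`,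
  `i ∈ I`, be an arbitrary finite family of integers, with at most `log ^ K N |I|` pairs of equal members, for which at
  most `log ^ K N * M / N` frequencies modulo `M` have an exponential sum larger than `η |I|`, and suppose that
  `η ^ 2 log ^ C N ≤ min (1, |I| / N)`. Then, for all but at most `|I| / log ^ U N` of the `i ∈ I` with `1 ≤ s i ≤ N`, the
  residue `a = s i` satisfies `∑_q max_{y ≤ N} |ψ(y; q, a) - y / φ(q)| ≤ N / log ^ U N`, where `q` ranges over all
  `q ≤ N / log ^ K' N` coprime to `a`.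
* There are `K'` and `C` such that this holds for all large `N`, all `P` with `N log ^ C N ≤ P ^ 4` and `P ^ 2 ≤ N`, every
  prime `M` between `3 N` and `6 N` and every integer `c` for the family of the residues `c + u / p` modulo `M`, where `p ≤ P`
  is prime and `u ≤ P`; at least `1 / 20` of the members of the family lie in `[1, N]`. -/
theorem result (U K : ℕ) :
    (∃ K' C N₀ : ℕ, ∀ N : ℕ, N₀ ≤ N → ∀ M : ℕ, 3 * N ≤ M → M ≤ N ^ 2 →
      ∀ (ι : Type) (I : Finset ι) (s : ι → ℤ) (η : ℝ), 0 ≤ η →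
      ((spectrum M I s η).card : ℝ) * N ≤ Real.log N ^ K * M →
      (coincidences I s : ℝ) ≤ Real.log N ^ K * I.card →
      η ^ 2 * Real.log N ^ C ≤ 1 → η ^ 2 * N * Real.log N ^ C ≤ I.card →
      (exceptions N (N / Real.log N ^ K') (N / Real.log N ^ U) I s : ℝ) ≤ I.card / Real.log N ^ U) ∧
    (∃ K' C N₀ : ℕ, ∀ N : ℕ, N₀ ≤ N → ∀ P : ℕ, N * Real.log N ^ C ≤ (P : ℝ) ^ 4 → P ^ 2 ≤ N →
      ∀ I : Finset (ℕ × ℕ), I = pairs P → ∀ M : ℕ, M.Prime → 3 * N ≤ M → M ≤ 6 * N → ∀ c : ℤ,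
      (I.card : ℝ) / 20 ≤ ((I.filter (fun j => 1 ≤ frac M c j ∧ frac M c j ≤ N)).card : ℝ) ∧
      (exceptions N (N / Real.log N ^ K') (N / Real.log N ^ U) I (frac M c) : ℝ) ≤ I.card / Real.log N ^ U) := by
  classical
  refine ⟨general U K, ?_⟩
  obtain ⟨K', C, n0, h0⟩ := general U 2
  obtain ⟨n1, h1⟩ := Pool.Agent.K1H51.TM.frac_all2
  obtain ⟨n2, h2⟩ := Pool.Agent.H373R2.T7.ev_L' 4
  refine ⟨K', C + 10, n0 + n1 + n2 + 9, fun N hN P hP1 hP2 I hI M hMp hM1 hM2 c => ?_⟩
  have hL := h2 N (by omega)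
  have h1 := h1 N (by omega)
  have h0 := h0 N (by omega)
  obtain ⟨L, hLd⟩ : ∃ L, L = Real.log (N : ℝ) := ⟨_, rfl⟩
  have hI' : I = Pool.Agent.K1H51.LD.pairs P P := hI
  have hfr : frac M c = Pool.Agent.K1H51.LD.frac M c := rfl
  have hN9 : (9 : ℝ) ≤ N := by exact_mod_cast (by omega : 9 ≤ N)
  have hN0 : (0 : ℝ) < N := by linarith
  rw [← hLd] at hL h1 h0 hP1 ⊢
  have hL1 : 1 ≤ L := by linarith
  have hL0 : 0 < L := by linarith
  have hPpos : 0 < P := by
    rcases Nat.eq_zero_or_pos P with h | h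
    · exfalso
      rw [h] at hP1
      have : (0 : ℝ) < N * L ^ (C + 10) := by positivity
      norm_num at hP1
      linarith
    · exact h
  have hP0 : (0 : ℝ) < P := by exact_mod_cast hPpos
  have hP2' : (P : ℝ) ^ 2 ≤ N := by exact_mod_cast hP2
  have h3P : 3 * P ≤ N := by
    have a1 : (3 : ℝ) * P ≤ N := by
      have a2 : (P : ℝ) ≤ √(N : ℝ) := Real.le_sqrt_of_sq_le hP2'
      have a3 : (3 : ℝ) ≤ √(N : ℝ) := Real.le_sqrt_of_sq_le (by linarith)
      have hs2 : √(N : ℝ) * √(N : ℝ) = N := Real.mul_self_sqrt hN0.le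
      nlinarith
    exact_mod_cast a1
  have hP5 : L ^ 5 ≤ P := by
    have a3 : (N : ℝ) * L ^ (C + 10) ≤ N * (P : ℝ) ^ 2 := by
      refine hP1.trans ?_
      calc (P : ℝ) ^ 4 = (P : ℝ) ^ 2 * (P : ℝ) ^ 2 := by ring
        _ ≤ N * (P : ℝ) ^ 2 := mul_le_mul_of_nonneg_right hP2' (by positivity)
    have a4 : L ^ (C + 10) ≤ (P : ℝ) ^ 2 := le_of_mul_le_mul_left a3 hN0
    have a5 : (L ^ 5) ^ 2 ≤ (P : ℝ) ^ 2 := by
      rw [← pow_mul]
      exact (pow_le_pow_right₀ hL1 (by omega)).trans a4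
    exact le_of_sq_le_sq a5 hP0.le
  obtain ⟨g1, g2, g3⟩ := h1 P hP5 h3P M hMp hM1 hM2 c
  rw [← hI', ← hfr] at g1 g2
  rw [← hI'] at g3
  refine ⟨g2, ?_⟩
  have hη : (0 : ℝ) ≤ L ^ 4 / P := by positivity
  have hM2' : M ≤ N ^ 2 := by
    have : 6 * N ≤ N ^ 2 := by
      rw [sq]
      exact Nat.mul_le_mul_right N (by omega)
    exact hM2.trans this
  have hspec : spectrum M I (frac M c) (L ^ 4 / P) ⊆ {0} := by
    intro t ht
    unfold spectrum at ht
    rw [mem_filter, mem_range] at ht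
    rw [mem_singleton]
    by_contra hne
    have h6 := g1 t (by omega) ht.1
    exact absurd ht.2 (not_lt.2 h6)
  have hc : ((spectrum M I (frac M c) (L ^ 4 / P)).card : ℝ) ≤ 1 := by
    exact_mod_cast (card_le_card hspec).trans (by simp)
  have hNM : (N : ℝ) ≤ M := by exact_mod_cast (by omega : N ≤ M)
  have hmult := Pool.Agent.K1H51.TM.frac_mult N P M (by omega) hMp (by omega) hP2 hPpos (by rw [← hLd]; exact hL1) c
  apply h0 M hM1 hM2' (ℕ × ℕ) I (frac M c) (L ^ 4 / P) hη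
  · calc ((spectrum M I (frac M c) (L ^ 4 / P)).card : ℝ) * N ≤ 1 * N := mul_le_mul_of_nonneg_right hc (Nat.cast_nonneg _)
      _ = N := one_mul _
      _ ≤ M := hNM
      _ ≤ L ^ 2 * M := le_mul_of_one_le_left (Nat.cast_nonneg _) (one_le_pow₀ hL1)
  · have e1 : (coincidences I (frac M c) : ℝ) ≤ 3 * L * I.card := by
      rw [hI', hfr, hLd]
      unfold coincidences
      convert hmult using 3
    refine e1.trans ?_
    apply mul_le_mul_of_nonneg_right _ (Nat.cast_nonneg _)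
    nlinarith
  · -- `L ^ 8 L ^ C ≤ P ^ 2`
    have a3 : (N : ℝ) * L ^ (C + 10) ≤ N * (P : ℝ) ^ 2 := by
      refine hP1.trans ?_
      calc (P : ℝ) ^ 4 = (P : ℝ) ^ 2 * (P : ℝ) ^ 2 := by ring
        _ ≤ N * (P : ℝ) ^ 2 := mul_le_mul_of_nonneg_right hP2' (by positivity)
    have a4 : L ^ (C + 10) ≤ (P : ℝ) ^ 2 := le_of_mul_le_mul_left a3 hN0
    rw [div_pow, div_mul_eq_mul_div, div_le_one (by positivity)]
    calc (L ^ 4) ^ 2 * L ^ C = L ^ (C + 8) := by ring
      _ ≤ L ^ (C + 10) := pow_le_pow_right₀ hL1 (by omega)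
      _ ≤ _ := a4
  · -- `L ^ 8 N L ^ C / P ^ 2 ≤ |I|`
    have a1 : (L ^ 4 / (P : ℝ)) ^ 2 * N * L ^ C * (4 * L) ≤ (P : ℝ) ^ 2 := by
      have e : (L ^ 4 / (P : ℝ)) ^ 2 * N * L ^ C * (4 * L) = (4 * (N * L ^ (C + 9))) / P ^ 2 := by
        field_simp
        ring
      rw [e, div_le_iff₀ (by positivity)]
      calc 4 * ((N : ℝ) * L ^ (C + 9)) ≤ L * (N * L ^ (C + 9)) := mul_le_mul_of_nonneg_right hL (by positivity)
        _ = N * L ^ (C + 10) := by ring
        _ ≤ (P : ℝ) ^ 4 := hP1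
        _ = _ := by ring
    have a2 : (L ^ 4 / (P : ℝ)) ^ 2 * N * L ^ C * (4 * L) ≤ I.card * (4 * L) := by
      refine a1.trans (g3.trans (le_of_eq ?_))
      ring
    exact le_of_mul_le_mul_right a2 (by positivity)

end Pool.Agent.Results.MP_00e23e_nt.FullRangeThinFamilies
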