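import Pool.Agent.K1H51.LP.Fin
import Pool.Agent.K1H51.LD.Frac
import Pool.Agent.TH823.Fam.Fam2

/-!
# Level of distribution `N / (log N) ^ K` for almost all residues from every family with a small large spectrum

The exponential sum bounds for the primes and the estimates for divisor sums are from the starting files
(`Pool.Agent.H373R2.T7`, `Pool.Agent.H807R2.Dav`, `Pool.Agent.W93.LV`), so are the moments of Weyl sums
(`Pool.Agent.TH823.Fam`).
From Mathlib: `ArithmeticFunction.vonMangoldt`: the function `Λ`; `Nat.totient`: Euler's function;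
`Polynomial ℤ`: the polynomials with integer coefficients; `f.eval m`: the value at `m`.
-/

set_option autoImplicit false

namespace Pool.Agent.Results.MP_00e23e_nt.LogPowerLevel

open Finset

open Classical in
/-- The large spectrum modulo `M` of the family `s i`, `i ∈ I`, at the level `η`: the frequencies `t` modulo `M`
for which the sum of `e (t (s i) / M)` over the `i ∈ I` has absolute value larger than `η |I|`. -/
noncomputable def spectrum {ι : Type} (M : ℕ) (I : Finset ι) (s : ι → ℤ) (η : ℝ) : Finset ℕ :=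
  (range M).filter (fun t : ℕ => η * I.card <
    ‖∑ i ∈ I, Complex.exp (2 * Real.pi * Complex.I * (((t : ℝ) * ((s i : ℝ) / M) : ℝ) : ℂ))‖)

/-- `ψ(y; q, a)`: the sum of `Λ(n)` over the `n ≤ y` with `n ≡ a (mod q)`. -/
noncomputable def psi (y q a : ℕ) : ℝ :=
  ∑ n ∈ (Icc 1 y).filter (fun n => n ≡ a [MOD q]), ArithmeticFunction.vonMangoldt n

/-- The sum of `λ(q) (ψ(y; q, a) - y / φ(q))` over the `q ≤ Q` coprime to `a`. -/
noncomputable def weighted (lam : ℕ → ℝ) (Q y a : ℕ) : ℝ :=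
  ∑ q ∈ (Icc 1 Q).filter (fun q => a.Coprime q), lam q * (psi y q a - (y : ℝ) / Nat.totient q)

/-- The level `N / (log N) ^ K`, rounded down. -/
noncomputable def level (K N : ℕ) : ℕ := ⌊(N : ℝ) / Real.log N ^ K⌋₊

open Classical in
/-- The number of the `i ∈ I` such that `a = s i` satisfies `1 ≤ a ≤ B N` and such that, for some of the systems
of coefficients `λ_l` and some `y ≤ B N`, the sum of `λ_l(q) (ψ(y; q, a) - y / φ(q))` over the
`q ≤ level K N` coprime to `a` has an absolute value larger than `N / log ^ U N`. -/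
noncomputable def exceptions {ι : Type} (B K U N : ℕ) {L : ℕ} (lam : Fin L → ℕ → ℝ) (I : Finset ι) (s : ι → ℤ) : ℝ :=
  ((I.filter (fun i => (0 < s i ∧ s i ≤ B * N) ∧ ∃ l, ∃ y ≤ B * N,
    N / Real.log N ^ U < |weighted (lam l) (level K N) y (s i).toNat|)).card : ℝ)

/-- The additive energy of order `p` of the family `s 1, ..., s x`: the number of the solutions of
`s (v 1) + ... + s (v p) = s (w 1) + ... + s (w p)` with all `v i`, `w i` in `{1, ..., x}`. -/
def energy (p x : ℕ) (s : ℕ → ℤ) : ℕ :=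
  (((Fintype.piFinset fun _ : Fin p => Icc 1 x) ×ˢ (Fintype.piFinset fun _ : Fin p => Icc 1 x)).filter
    (fun q => ∑ i, s (q.1 i) = ∑ i, s (q.2 i))).card

/-- The pairs `(p, u)` with a prime `p ≤ P` and `1 ≤ u ≤ S`. -/
def pairs (P S : ℕ) : Finset (ℕ × ℕ) := ((Icc 1 P).filter Nat.Prime) ×ˢ (Icc 1 S)

/-- The least non-negative residue of `c + u / p` modulo `M`, for the pair `i = (p, u)`. -/
def frac (M : ℕ) (c : ℤ) (i : ℕ × ℕ) : ℤ := (c + i.2 * (((i.1 : ZMod M)⁻¹.val : ℕ) : ℤ)) % M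

theorem general (B T U : ℕ) : ∃ U1 : ℕ, 1 ≤ U1 ∧ ∀ K : ℕ, ∃ K' N₀ : ℕ, ∀ N : ℕ, N₀ ≤ N → ∀ M : ℕ, 3 * ((B + 1) * N) ≤ M →
    ∀ {ι : Type} (I : Finset ι) (s : ι → ℤ),
    ((spectrum M I s (1 / Real.log N ^ U1)).card : ℝ) * N ≤ Real.log N ^ K * M →
    ∀ L : ℕ, (L : ℝ) ≤ Real.log N ^ T → ∀ lam : Fin L → ℕ → ℝ, (∀ l q, |lam l q| ≤ Real.log N ^ T) →
    exceptions B K' U N lam I s ≤ I.card / Real.log N ^ U := by
  classical
  obtain ⟨U1, h1⟩ := Pool.Agent.K1H51.LP.crit2 B T (T + U)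
  refine ⟨U1 + 1, by omega, fun K => ?_⟩
  obtain ⟨K', N₀, h2⟩ := h1 K
  refine ⟨K', N₀ + 3, fun N hN M hM ι I s hspec L hL lam hlam => ?_⟩
  have hlog1 : 1 ≤ Real.log N := by
    rw [Real.le_log_iff_exp_le (by exact_mod_cast (by omega : 0 < N))]
    have : (3 : ℝ) ≤ N := by exact_mod_cast (by omega : 3 ≤ N)
    linarith [Real.exp_one_lt_d9]
  have hlog0 : 0 < Real.log N := by linarith
  have hsub : Pool.Agent.K1H51.LP.spec M I s (1 / Real.log N ^ U1) ⊆ spectrum M I s (1 / Real.log N ^ (U1 + 1)) := by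
    intro t ht
    unfold Pool.Agent.K1H51.LP.spec at ht
    unfold spectrum
    rw [mem_filter] at ht ⊢
    refine ⟨ht.1, lt_of_le_of_lt ?_ ht.2⟩
    apply mul_le_mul_of_nonneg_right _ (Nat.cast_nonneg _)
    apply one_div_le_one_div_of_le (by positivity)
    exact pow_le_pow_right₀ hlog1 (by omega)
  have hspec' : ((Pool.Agent.K1H51.LP.spec M I s (1 / Real.log N ^ U1)).card : ℝ) * N ≤ Real.log N ^ K * M := by
    refine le_trans ?_ hspec
    apply mul_le_mul_of_nonneg_right _ (Nat.cast_nonneg _)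
    exact_mod_cast card_le_card hsub
  obtain ⟨E, hE⟩ : ∃ E : Fin L → Finset ι, E = fun l => I.filter (fun i => (0 < s i ∧ s i ≤ B * N) ∧ ∃ y ≤ B * N,
      N / Real.log N ^ (T + U) < |Pool.Agent.K1H51.LP.DD (lam l) (level K' N) y (s i).toNat|) := ⟨_, rfl⟩
  have h3 : ∀ l : Fin L, ((E l).card : ℝ) ≤ I.card / Real.log N ^ (T + U) := by
    intro l
    have h4 := h2 N (by omega) M hM I s hspec' (lam l) (hlam l) (level K' N) (Nat.floor_le (by positivity))
    rw [hE]
    exact h4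
  have hcover : I.filter (fun i => (0 < s i ∧ s i ≤ B * N) ∧ ∃ l, ∃ y ≤ B * N,
      N / Real.log N ^ U < |weighted (lam l) (level K' N) y (s i).toNat|) ⊆ (univ : Finset (Fin L)).biUnion E := by
    intro i hi
    rw [mem_filter] at hi
    obtain ⟨hiI, hi1, l, y, hy, hlt⟩ := hi
    rw [mem_biUnion]
    refine ⟨l, mem_univ _, ?_⟩
    rw [hE]
    simp only
    rw [mem_filter]
    refine ⟨hiI, hi1, y, hy, lt_of_le_of_lt ?_ hlt⟩
    apply div_le_div_of_nonneg_left (Nat.cast_nonneg _) (by positivity)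
    exact pow_le_pow_right₀ hlog1 (by omega)
  unfold exceptions
  calc ((I.filter (fun i => (0 < s i ∧ s i ≤ B * N) ∧ ∃ l, ∃ y ≤ B * N,
      N / Real.log N ^ U < |weighted (lam l) (level K' N) y (s i).toNat|)).card : ℝ)
      ≤ ∑ l, ((E l).card : ℝ) := by
        rw [← Nat.cast_sum]
        apply Nat.cast_le.2
        exact (card_le_card hcover).trans card_biUnion_le
    _ ≤ ∑ _l : Fin L, (I.card : ℝ) / Real.log N ^ (T + U) := sum_le_sum fun l _ => h3 l
    _ = L * (I.card / Real.log N ^ (T + U)) := by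
        rw [sum_const, card_univ, Fintype.card_fin, nsmul_eq_mul]
    _ ≤ Real.log N ^ T * (I.card / Real.log N ^ (T + U)) := mul_le_mul_of_nonneg_right hL (by positivity)
    _ = I.card / Real.log N ^ U := by
        rw [pow_add]
        field_simp

theorem energies (B T U : ℕ) (p C : ℕ) : ∃ K N₀ : ℕ, ∀ N : ℕ, N₀ ≤ N → ∀ (x : ℕ) (s : ℕ → ℤ), (∀ m ∈ Icc 1 x, |s m| ≤ B * N) →
    (energy p x s : ℝ) * N ≤ Real.log N ^ C * (x : ℝ) ^ (2 * p) →
    ∀ L : ℕ, (L : ℝ) ≤ Real.log N ^ T → ∀ lam : Fin L → ℕ → ℝ, (∀ l q, |lam l q| ≤ Real.log N ^ T) →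
    exceptions B K U N lam (Icc 1 x) s ≤ x / Real.log N ^ U := by
  classical
  obtain ⟨U1, hU1, h1⟩ := general B T U
  obtain ⟨K', N₀, h2⟩ := h1 (C + 2 * p * U1)
  refine ⟨K', N₀ + 3, fun N hN x s hs hen L hL lam hlam => ?_⟩
  have hlog1 : 1 ≤ Real.log N := by
    rw [Real.le_log_iff_exp_le (by exact_mod_cast (by omega : 0 < N))]
    have : (3 : ℝ) ≤ N := by exact_mod_cast (by omega : 3 ≤ N)
    linarith [Real.exp_one_lt_d9]
  have hlog0 : 0 < Real.log N := by linarith
  have hN0 : 0 < N := by omega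
  obtain ⟨M, hM⟩ : ∃ M, M = (2 * p * B + 3 * B + 4) * N := ⟨_, rfl⟩
  have hM1 : 1 ≤ M := by rw [hM]; exact Nat.mul_pos (by omega) hN0
  have hM3 : 3 * ((B + 1) * N) ≤ M := by
    rw [hM, ← mul_assoc]
    apply Nat.mul_le_mul_right
    have : 0 ≤ 2 * p * B := Nat.zero_le _
    omega
  have key := h2 N (by omega) M hM3 (Icc 1 x) s (by
    rcases Nat.eq_zero_or_pos x with hx | hx
    · subst hx
      have : spectrum M (Icc 1 0) s (1 / Real.log N ^ U1) = ∅ := by
        unfold spectrum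
        rw [filter_eq_empty_iff]
        intro t _
        simp
      rw [this]
      simp only [card_empty, Nat.cast_zero, zero_mul]
      positivity
    have hx0 : (0 : ℝ) < x := by exact_mod_cast hx
    have hmom := Pool.Agent.H373R2.T7.moment_energy p x s M (B * N) hM1 (fun m hm => by
      have := hs m hm
      push_cast
      exact this) (by
      rw [hM]
      calc 2 * p * (B * N) = (2 * p * B) * N := by ring
        _ < (2 * p * B + 3 * B + 4) * N := Nat.mul_lt_mul_of_pos_right (by omega) hN0)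
    have h3 : ((spectrum M (Icc 1 x) s (1 / Real.log N ^ U1)).card : ℝ) * (x / Real.log N ^ U1) ^ (2 * p) ≤ M * energy p x s := by
      have h4 : ((spectrum M (Icc 1 x) s (1 / Real.log N ^ U1)).card : ℝ) * (x / Real.log N ^ U1) ^ (2 * p) ≤
          ∑ t ∈ spectrum M (Icc 1 x) s (1 / Real.log N ^ U1),
            ‖∑ m ∈ Icc 1 x, Pool.Agent.H807R2.Dav.ee ((t : ℝ) * ((s m : ℝ) / M))‖ ^ (2 * p) := by
        rw [← nsmul_eq_mul]
        apply card_nsmul_le_sum
        intro t ht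
        unfold spectrum at ht
        rw [mem_filter, Nat.card_Icc, Nat.add_sub_cancel] at ht
        apply pow_le_pow_left₀ (by positivity)
        refine le_trans (le_of_eq ?_) ht.2.le
        ring
      refine h4.trans ?_
      have h5 : (energy p x s : ℝ) = Pool.Agent.H373R2.T7.energy p x s := rfl
      rw [h5, ← hmom]
      apply sum_le_sum_of_subset_of_nonneg
      · unfold spectrum
        exact filter_subset _ _
      · intro _ _ _
        positivity
    have h6 : (((spectrum M (Icc 1 x) s (1 / Real.log N ^ U1)).card : ℝ) * N) * (x / Real.log N ^ U1) ^ (2 * p) ≤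
        (Real.log N ^ (C + 2 * p * U1) * M) * (x / Real.log N ^ U1) ^ (2 * p) := by
      calc (((spectrum M (Icc 1 x) s (1 / Real.log N ^ U1)).card : ℝ) * N) * (x / Real.log N ^ U1) ^ (2 * p) =
          (((spectrum M (Icc 1 x) s (1 / Real.log N ^ U1)).card : ℝ) * (x / Real.log N ^ U1) ^ (2 * p)) * N := by ring
        _ ≤ (M * energy p x s) * N := mul_le_mul_of_nonneg_right h3 (Nat.cast_nonneg _)
        _ = M * (energy p x s * N) := by ring
        _ ≤ M * (Real.log N ^ C * (x : ℝ) ^ (2 * p)) := mul_le_mul_of_nonneg_left hen (Nat.cast_nonneg _)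
        _ = _ := by
            rw [div_pow, ← pow_mul, pow_add, show 2 * p * U1 = U1 * (2 * p) by ring]
            field_simp
    exact le_of_mul_le_mul_right h6 (by positivity)) L hL lam hlam
  rw [Nat.card_Icc, Nat.add_sub_cancel] at key
  exact key

/-- Let `B`, `T`, `U` be fixed. Let the systems of coefficients `λ_l(q)`, where `l` ranges over at most
`log ^ T N` indices, be arbitrary with `|λ_l(q)| ≤ log ^ T N`. A family `s i`, `i ∈ I`, of integers is called
good here (with the exponent `K'`) if, for all but at most `|I| / log ^ U N` of the `i ∈ I` with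
`1 ≤ s i ≤ B N`, the residue `a = s i` satisfies `|∑_q λ_l(q) (ψ(y; q, a) - y / φ(q))| ≤ N / log ^ U N` for all `l`
and all `y ≤ B N`, where `q` ranges over the `q ≤ N / (log N) ^ K'` coprime to `a`.
* There is a `U1` such that for every `K`, with some `K'`, for all large `N` and every `M ≥ 3 (B + 1) N`:
  an arbitrary finite family of integers is good if at most `log ^ K N * M / N` frequencies `t` modulo `M`
  have an exponential sum larger than `|I| / log ^ U1 N`.
* For all `p` and `C`, with some `K'`, for all large `N`: a family `s 1, ..., s x` of integers in `[-B N, B N]` is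
  good if its additive energy of order `p` is at most `log ^ C N` times the minimal possible size `x ^ (2 p) / N`.
* For every nonconstant polynomial `f` with integer coefficients, of degree `d`, and every `C`, with some `K'`,
  for all large `N`: the family `c + f m`, `m ≤ x`, is good if `N / log ^ C N ≤ x ^ d ≤ B N` and `|c| ≤ B N`.
* There are `C`, `K'` such that for all large `N`, every prime `M` with `(6 B + 8) N ≤ M ≤ (12 B + 16) N` and every
  integer `c`: the family of the residues `c + u / p` modulo `M`, where `p ≤ log ^ C N` is prime and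
  `u ≤ log ^ (2 C) N`, is good; at least `1 / (100 (B + 1))` of these residues lie in `[1, N]`. -/
theorem result (B T U : ℕ) :
    (∃ U1 : ℕ, ∀ K : ℕ, ∃ K' N₀ : ℕ, ∀ N : ℕ, N₀ ≤ N → ∀ M : ℕ, 3 * ((B + 1) * N) ≤ M →
      ∀ {ι : Type} (I : Finset ι) (s : ι → ℤ),
      ((spectrum M I s (1 / Real.log N ^ U1)).card : ℝ) * N ≤ Real.log N ^ K * M →
      ∀ L : ℕ, (L : ℝ) ≤ Real.log N ^ T → ∀ lam : Fin L → ℕ → ℝ, (∀ l q, |lam l q| ≤ Real.log N ^ T) →
      exceptions B K' U N lam I s ≤ I.card / Real.log N ^ U) ∧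
    (∀ p C : ℕ, ∃ K' N₀ : ℕ, ∀ N : ℕ, N₀ ≤ N → ∀ (x : ℕ) (s : ℕ → ℤ), (∀ m ∈ Icc 1 x, |s m| ≤ B * N) →
      (energy p x s : ℝ) * N ≤ Real.log N ^ C * (x : ℝ) ^ (2 * p) →
      ∀ L : ℕ, (L : ℝ) ≤ Real.log N ^ T → ∀ lam : Fin L → ℕ → ℝ, (∀ l q, |lam l q| ≤ Real.log N ^ T) →
      exceptions B K' U N lam (Icc 1 x) s ≤ x / Real.log N ^ U) ∧
    (∀ f : Polynomial ℤ, 1 ≤ f.natDegree → ∀ C : ℕ, ∃ K' N₀ : ℕ, ∀ N : ℕ, N₀ ≤ N → ∀ x : ℕ,
      x ^ f.natDegree ≤ B * N → (N : ℝ) ≤ Real.log N ^ C * (x : ℝ) ^ f.natDegree → ∀ c : ℤ, |c| ≤ B * N →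
      ∀ L : ℕ, (L : ℝ) ≤ Real.log N ^ T → ∀ lam : Fin L → ℕ → ℝ, (∀ l q, |lam l q| ≤ Real.log N ^ T) →
      exceptions B K' U N lam (Icc 1 x) (fun m => c + f.eval (m : ℤ)) ≤ x / Real.log N ^ U) ∧
    (∃ C K' N₀ : ℕ, ∀ N : ℕ, N₀ ≤ N → ∀ M : ℕ, M.Prime → (6 * B + 8) * N ≤ M → M ≤ (12 * B + 16) * N →
      ∀ c : ℤ, ∀ I : Finset (ℕ × ℕ), I = pairs ⌊Real.log N ^ C⌋₊ ⌊Real.log N ^ (2 * C)⌋₊ →
      (I.card : ℝ) / (100 * (B + 1)) ≤ ((I.filter (fun i => 1 ≤ frac M c i ∧ frac M c i ≤ N)).card : ℝ) ∧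
      ∀ L : ℕ, (L : ℝ) ≤ Real.log N ^ T → ∀ lam : Fin L → ℕ → ℝ, (∀ l q, |lam l q| ≤ Real.log N ^ T) →
      exceptions B K' U N lam I (frac M c) ≤ I.card / Real.log N ^ U) := by
  classical
  obtain ⟨U1, hU1, h1⟩ := general B T U
  refine ⟨⟨U1, h1⟩, fun p C => energies B T U p C, fun f hd C => ?_, ?_⟩
  · obtain ⟨p, B', hB', N1, h3⟩ := Pool.Agent.TH823.Fam.poly_family f hd B C
    obtain ⟨K, N2, h4⟩ := energies B' T U p (C + 1)
    refine ⟨K, N1 + N2, fun N hN x hx1 hx2 c hc L hL lam hlam => ?_⟩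
    obtain ⟨h5, h6⟩ := h3 N (by omega) x hx1 hx2 c hc
    refine le_trans ?_ (h4 N (by omega) x (fun m => c + f.eval (m : ℤ)) h5 h6 L hL lam hlam)
    unfold exceptions
    apply Nat.cast_le.2
    apply card_le_card
    intro m hm
    rw [mem_filter] at hm ⊢
    obtain ⟨h7, ⟨h8, h9⟩, l, y, hy, h10⟩ := hm
    have hBB : B * N ≤ B' * N := Nat.mul_le_mul_right _ hB'
    refine ⟨h7, ⟨h8, h9.trans ?_⟩, l, y, hy.trans hBB, h10⟩
    exact_mod_cast hBB
  obtain ⟨K', n1, h2⟩ := h1 0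
  obtain ⟨C, n2, h3⟩ := Pool.Agent.K1H51.LD.frac_param B U1 hU1
  refine ⟨C, K', n1 + n2 + 1, fun N hN M hMp hM1 hM2 c I hI => ?_⟩
  obtain ⟨h4, h5⟩ := h3 N (by omega) M hMp hM1 hM2 c
  have hI' : I = Pool.Agent.K1H51.LD.pairs ⌊Real.log N ^ C⌋₊ ⌊Real.log N ^ (2 * C)⌋₊ := hI
  rw [← hI'] at h4 h5
  refine ⟨h5, fun L hL lam hlam => ?_⟩
  apply h2 N (by omega) M ?_ I (frac M c) _ L hL lam hlam
  · refine le_trans ?_ hM1
    rw [← mul_assoc]
    exact Nat.mul_le_mul_right _ (by omega)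
  have hsub : spectrum M I (frac M c) (1 / Real.log N ^ U1) ⊆ {0} := by
    intro t ht
    unfold spectrum at ht
    rw [mem_filter, mem_range] at ht
    rw [mem_singleton]
    by_contra hne
    have h6 := h4 t (by omega) ht.1
    exact absurd ht.2 (not_lt.2 h6)
  have hc : ((spectrum M I (frac M c) (1 / Real.log N ^ U1)).card : ℝ) ≤ 1 := by
    exact_mod_cast (card_le_card hsub).trans (by simp)
  have hNM : (N : ℝ) ≤ M := by
    have : N ≤ (6 * B + 8) * N := Nat.le_mul_of_pos_left _ (by omega)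
    exact_mod_cast this.trans hM1
  rw [pow_zero, one_mul]
  calc ((spectrum M I (frac M c) (1 / Real.log N ^ U1)).card : ℝ) * N ≤ 1 * N := mul_le_mul_of_nonneg_right hc (Nat.cast_nonneg _)
    _ = N := one_mul _
    _ ≤ M := hNM

end Pool.Agent.Results.MP_00e23e_nt.LogPowerLevel
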