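import Mathlib
import Pool.Agent.Results.MP_00e23e_nt.ShortIntervalResidues
import Pool.Agent.K1H84.EHR.Cls

/-!
# The primes have level of distribution `1 - ε` in random residue classes

`E(x; q, a) = π(x; q, a) - li(x) / φ(q)`. A sequence of residues `r_q`, `q ≥ 1`, is said to be of level one if
for all `ε > 0`, `U` and `H` there is a `C` such that for ALL `x ≥ 3` and ALL shifts `0 ≤ h_q ≤ (log x)^H`
`∑_{q ≤ x^(1-ε), (r_q + h_q, q) = 1} |E(x; q, r_q + h_q)| ≤ C x / (log x)^U`.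
So this is the inequality of Elliott and Halberstam with the maximum over `(log x)^H` consecutive residue
classes inside the sum, and with the exponent `1 - ε`.

We prove that this holds almost surely for random residues `r_q`, with no assumption whatsoever on the
dependence of the `r_q` for different `q`:
* if each residue class modulo `q` is hit with probability at most `K (1 + log q)^K / q` (for instance, if
  `r_q` is `z` modulo `q` for a random profinite integer `z`);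
* more generally, if the `r_q`, `2^j ≤ q < 2^(j+1)`, lie in short intervals of length at least `2^(κ j)`,
  `κ > 1/2`, and have a density there which is at most a power of `log q` times the uniform one;
* for every sequence `l_q ≥ q^κ`, `κ > 1/2`, for the residues `⌊ξ l_q⌋ + 1` for almost all real `ξ ≥ 0`.

The input is the starting result `ShortIntervalResidues` (the average over the modulus and the residue).
-/

set_option autoImplicit false

namespace Pool.Agent.Results.MP_00e23e_nt.RandomResidues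

open Finset MeasureTheory
open Pool.Agent.Results.MP_00e23e_nt.ShortIntervalResidues

/-- The residues `r q`, `q ≥ 1`, are of level one: for all `ε > 0`, `U`, `H` the bound
`∑_{q ≤ x^(1-ε), (r q + h q, q) = 1} |E(x; q, r q + h q)| ≤ C x / (log x)^U` holds for all `x ≥ 3` and all
shifts `h q ≤ (log x)^H`, with `C` depending on `r`, `ε`, `U`, `H` only. -/
def LevelOne (r : ℕ → ℕ) : Prop :=
  ∀ (ε : ℝ) (U H : ℕ), 0 < ε → ∃ C : ℝ, ∀ x : ℕ, 3 ≤ x → ∀ h : ℕ → ℕ,
    (∀ q, (h q : ℝ) ≤ Real.log x ^ H) →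
    ∑ q ∈ (Icc 1 ⌊(x : ℝ) ^ (1 - ε)⌋₊).filter (fun q => (r q + h q).Coprime q),
      |E x q (r q + h q)| ≤ C * (x / Real.log x ^ U)

/-- For each `j` a set of at most `K (j+1)^K` pairs `(b, A)` (the intervals `(b, b + A]`) with
`A ≥ 2^(κ j)` and `b + A ≤ K (j+1)^K 2^j`. -/
def Intervals (κ : ℝ) (K : ℕ) (I : ℕ → Finset (ℕ × ℕ)) : Prop :=
  ∀ j : ℕ, ((I j).card : ℝ) ≤ K * ((j : ℝ) + 1) ^ K ∧
    ∀ p ∈ I j, (2 : ℝ) ^ (κ * j) ≤ p.2 ∧ (p.1 : ℝ) + p.2 ≤ K * ((j : ℝ) + 1) ^ K * 2 ^ j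

/-- `K (j+1)^K` times the sum of the densities at `a` of the uniform distributions on the intervals
`(b, b + A]`, `(b, A) ∈ I j`, where `2^j ≤ q < 2^(j+1)`. -/
noncomputable def density (K : ℕ) (I : ℕ → Finset (ℕ × ℕ)) (q a : ℕ) : ℝ :=
  K * ((Nat.log 2 q : ℝ) + 1) ^ K *
    ∑ p ∈ I (Nat.log 2 q), if p.1 < a ∧ a ≤ p.1 + p.2 then 1 / (p.2 : ℝ) else 0

theorem level_iff (r : ℕ → ℕ) : Pool.Agent.K1H84.EHR.Level r ↔ LevelOne r := Iff.rfl

/-- **Random residue classes are of level one.** -/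
theorem result :
    -- random residue classes
    (∀ (Ω : Type) [MeasurableSpace Ω] (P : Measure Ω) (r : ℕ → Ω → ℕ) (K : ℕ),
      (∀ q, Measurable (r q)) →
      (∀ q : ℕ, 1 ≤ q → ∀ a, P {ω | r q ω ≡ a [MOD q]} ≤
        ENNReal.ofReal (K * (1 + Real.log q) ^ K / q)) →
      ∀ᵐ ω ∂P, LevelOne (fun q => r q ω)) ∧
    -- random residues in short intervals
    (∀ (Ω : Type) [MeasurableSpace Ω] (P : Measure Ω) (r : ℕ → Ω → ℕ) (κ : ℝ) (K : ℕ)
      (I : ℕ → Finset (ℕ × ℕ)), (∀ q, Measurable (r q)) → 1 / 2 < κ → κ ≤ 1 → Intervals κ K I →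
      (∀ q, 1 ≤ q → ∀ a, P {ω | r q ω = a} ≤ ENNReal.ofReal (density K I q a)) →
      ∀ᵐ ω ∂P, LevelOne (fun q => r q ω)) ∧
    -- almost all real numbers
    (∀ (κ : ℝ) (l : ℕ → ℝ), 1 / 2 < κ → (∀ q : ℕ, (q : ℝ) ^ κ ≤ l q) →
      ∀ᵐ ξ : ℝ, 0 ≤ ξ → LevelOne (fun q => ⌊ξ * l q⌋₊ + 1)) :=
  ⟨fun _ _ P r K hr hP => Pool.Agent.K1H84.EHR.classes P r hr K hP,
    fun _ _ P r _ K I hr hκ hκ1 hI hP => Pool.Agent.K1H84.EHR.random P r hr hκ hκ1 K I hI hP,
    fun _ l hκ hl => Pool.Agent.K1H84.EHR.real_points hκ l hl⟩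

end Pool.Agent.Results.MP_00e23e_nt.RandomResidues
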